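import Pool.Agent.U755.FN.Dec
import Pool.Agent.N2.QW.Mat

/-! Almost invariant vectors of the tensor square of a representation make a quotient group
hyperlinear. -/

set_option autoImplicit false
set_option linter.unusedSectionVars false
open scoped TensorProduct ComplexOrder BigOperators InnerProductSpace

namespace Pool.Agent.U755.FN

open Pool.Agent.Helper965.CN (R R_tmul R_one vf vf_apply R_star R_bdd cn_R_one cn_norm_sq cn_left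
  cn_right exists_sum_tmul)
open Pool.Agent.H21R2 (IsHyperlinear)

section abs

variable {E : Type} [NormedAddCommGroup E] [InnerProductSpace ℂ E]

theorem e_sub_sq {ζ η : E} (h1 : ‖ζ‖ = 1) (h2 : ‖η‖ = 1) :
    ‖ζ - η‖ ^ 2 = 2 - 2 * (inner ℂ ζ η : ℂ).re := by
  have := @norm_sub_sq ℂ E _ _ _ ζ η
  rw [this, h1, h2]
  simp only [RCLike.re_to_complex]
  ring

theorem e_symm (ζ η : E) : (inner ℂ ζ η : ℂ) = star (inner ℂ η ζ : ℂ) :=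
  (inner_conj_symm (𝕜 := ℂ) ζ η).symm

theorem e_form_sub {S : E →ₗ[ℂ] E} {c : ℝ} (hS : ∀ x, ‖S x‖ ≤ c * ‖x‖) (hc : 0 ≤ c) {ζ η : E}
    (h1 : ‖ζ‖ = 1) (h2 : ‖η‖ = 1) :
    ‖(inner ℂ ζ (S ζ) : ℂ) - inner ℂ η (S η)‖ ≤ 2 * c * ‖ζ - η‖ := by
  have e : (inner ℂ ζ (S ζ) : ℂ) - inner ℂ η (S η) =
      inner ℂ (ζ - η) (S ζ) + inner ℂ η (S (ζ - η)) := by
    rw [map_sub, inner_sub_left, inner_sub_right]
    ring
  rw [e]
  refine (norm_add_le _ _).trans ?_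
  have h3 : ‖(inner ℂ (ζ - η) (S ζ) : ℂ)‖ ≤ ‖ζ - η‖ * c := by
    refine (norm_inner_le_norm _ _).trans ?_
    have := hS ζ
    rw [h1, mul_one] at this
    exact mul_le_mul_of_nonneg_left this (norm_nonneg _)
  have h4 : ‖(inner ℂ η (S (ζ - η)) : ℂ)‖ ≤ c * ‖ζ - η‖ := by
    refine (norm_inner_le_norm _ _).trans ?_
    rw [h2, one_mul]
    exact hS _
  linarith

end abs

variable {K : Type} [NormedAddCommGroup K] [InnerProductSpace ℂ K] [CompleteSpace K]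

theorem u_star_mul (w : unitary (K →L[ℂ] K)) :
    star (w : K →L[ℂ] K) * (w : K →L[ℂ] K) = 1 := Unitary.coe_star_mul_self w

theorem u_norm_le (w : unitary (K →L[ℂ] K)) : ‖(w : K →L[ℂ] K)‖ ≤ 1 := by
  rcases subsingleton_or_nontrivial (K →L[ℂ] K) with h | h
  · rw [Subsingleton.elim (w : K →L[ℂ] K) 0, norm_zero]; exact zero_le_one
  · exact (CStarRing.norm_coe_unitary w).le

theorem R_unit_norm (a b : unitary (K →L[ℂ] K)) (ζ : K ⊗[ℂ] K) :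
    ‖R ((a : K →L[ℂ] K) ⊗ₜ[ℂ] (b : K →L[ℂ] K)) ζ‖ = ‖ζ‖ := by
  have h1 := cn_norm_sq ((a : K →L[ℂ] K) ⊗ₜ[ℂ] (b : K →L[ℂ] K)) ζ
  have h2 := cn_norm_sq ((1 : K →L[ℂ] K) ⊗ₜ[ℂ] (1 : K →L[ℂ] K)) ζ
  rw [TensorProduct.star_tmul, Algebra.TensorProduct.tmul_mul_tmul, u_star_mul, u_star_mul] at h1
  rw [TensorProduct.star_tmul, Algebra.TensorProduct.tmul_mul_tmul, star_one, one_mul,
    ← h1, cn_R_one] at h2
  exact (pow_left_inj₀ (norm_nonneg _) (norm_nonneg _) two_ne_zero).1 h2.symm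

/-- moving a unitary across -/
theorem inner_conj (a : unitary (K →L[ℂ] K)) (V : K →L[ℂ] K) (ζ : K ⊗[ℂ] K) :
    (inner ℂ ζ (R ((star (a : K →L[ℂ] K) * V * (a : K →L[ℂ] K)) ⊗ₜ[ℂ] (1 : K →L[ℂ] K)) ζ) : ℂ) =
      inner ℂ (R ((a : K →L[ℂ] K) ⊗ₜ[ℂ] (a : K →L[ℂ] K)) ζ)
        (R (V ⊗ₜ[ℂ] (1 : K →L[ℂ] K)) (R ((a : K →L[ℂ] K) ⊗ₜ[ℂ] (a : K →L[ℂ] K)) ζ)) := by
  rw [R_star, ← Pool.Agent.Helper965.CN.R_mul, ← Pool.Agent.Helper965.CN.R_mul,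
    TensorProduct.star_tmul, Algebra.TensorProduct.tmul_mul_tmul,
    Algebra.TensorProduct.tmul_mul_tmul, mul_one, u_star_mul]

/-- invariance of the density under a unitary -/
theorem inv_bound (a : unitary (K →L[ℂ] K)) (V : K →L[ℂ] K) (hV : ‖V‖ ≤ 1) (ζ : K ⊗[ℂ] K)
    (hζ : ‖ζ‖ = 1) :
    ‖(inner ℂ ζ (R (V ⊗ₜ[ℂ] (1 : K →L[ℂ] K)) ζ) : ℂ) -
      inner ℂ ζ (R ((star (a : K →L[ℂ] K) * V * (a : K →L[ℂ] K)) ⊗ₜ[ℂ] (1 : K →L[ℂ] K)) ζ)‖ ≤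
      2 * ‖ζ - R ((a : K →L[ℂ] K) ⊗ₜ[ℂ] (a : K →L[ℂ] K)) ζ‖ := by
  rw [inner_conj]
  have h1 := e_form_sub (E := K ⊗[ℂ] K) (S := R (V ⊗ₜ[ℂ] (1 : K →L[ℂ] K))) (c := 1)
    (fun x => (cn_left V x).trans (mul_le_mul_of_nonneg_right hV (norm_nonneg _))) zero_le_one
    (ζ := ζ) (η := R ((a : K →L[ℂ] K) ⊗ₜ[ℂ] (a : K →L[ℂ] K)) ζ) hζ
    ((R_unit_norm a a ζ).trans hζ)
  rw [mul_one] at h1
  exact h1

theorem hyper_of_approx {G F : Type} [Group G] [Group F] (ψ : F →* G)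
    (hψ : Function.Surjective ψ) (v : F →* unitary (K →L[ℂ] K)) (κ : F × F → ℂ)
    (hκ1 : ∀ p, ψ p.1 = ψ p.2 → κ p = 1) (hκ0 : ∀ p, ψ p.1 ≠ ψ p.2 → κ p = 0)
    (h : ∀ (I : Finset (F × F)) (δ : ℝ), 0 < δ → ∃ (J : Type) (_ : Fintype J) (t : J → ℝ)
      (ζ : J → K ⊗[ℂ] K), (∀ j, 0 ≤ t j) ∧ ∑ j, t j = 1 ∧ (∀ j, ‖ζ j‖ = 1) ∧
      ∀ p ∈ I, ‖∑ j, (t j : ℂ) * inner ℂ (ζ j)
        (R ((v p.1 : K →L[ℂ] K) ⊗ₜ[ℂ] (v p.2 : K →L[ℂ] K)) (ζ j)) - κ p‖ ≤ δ) :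
    IsHyperlinear G := by
  classical
  apply Pool.Agent.N2.QW.t_mat
  intro A
  refine ⟨1, fun ε hε => ?_⟩
  choose s' hs' using hψ
  let s : G → F := fun g => if g = 1 then 1 else s' g
  have hs1 : s 1 = 1 := if_pos rfl
  have hs : ∀ g, ψ (s g) = g := by
    intro g
    by_cases hg : g = 1
    · rw [hg, hs1, map_one]
    · simp only [s, if_neg hg]
      exact hs' g
  set δ : ℝ := min (ε / 2) (ε ^ 2 / 8) with hδ
  have hδ0 : 0 < δ := lt_min (by positivity) (by positivity)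
  have hδ1 : δ ≤ ε / 2 := min_le_left _ _
  have hδ2 : δ ≤ ε ^ 2 / 8 := min_le_right _ _
  let nn : G × G → F := fun q => (s (q.1 * q.2))⁻¹ * (s q.1 * s q.2)
  have hnn : ∀ q, ψ (nn q) = 1 := by
    intro q
    simp only [nn, map_mul, map_inv, hs]
    group
  let I : Finset (F × F) := (A.image fun g => (s g, s g)) ∪
    ((A ×ˢ A).image fun q => (nn q, 1)) ∪ (A.image fun g => (s g, 1))
  obtain ⟨J, _, t, ζ, ht0, ht1, hζ, happ⟩ := h I δ hδ0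
  choose n a e he hae using fun j => exists_on (ζ j)
  let Idx : Type := Σ j, Fin (n j)
  let eq := Fintype.equivFin Idx
  let z : Idx → K := fun q => ((Real.sqrt (t q.1) : ℝ) : ℂ) • a q.1 q.2
  have ht1c : ∑ j, (t j : ℂ) = 1 := by
    rw [← Complex.ofReal_sum, ht1, Complex.ofReal_one]
  -- the density
  have hE : ∀ T : K →L[ℂ] K, ∑ q, inner ℂ (z q) (T (z q)) =
      ∑ j, (t j : ℂ) * inner ℂ (ζ j) (R (T ⊗ₜ[ℂ] (1 : K →L[ℂ] K)) (ζ j)) := by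
    intro T
    rw [Fintype.sum_sigma]
    refine Finset.sum_congr rfl fun j _ => ?_
    have h1 : (inner ℂ (ζ j) (R (T ⊗ₜ[ℂ] (1 : K →L[ℂ] K)) (ζ j)) : ℂ) =
        ∑ k, inner ℂ (a j k) (T (a j k)) := by
      rw [hae j]
      exact inner_on (a j) (e j) (he j) T
    rw [h1, Finset.mul_sum]
    refine Finset.sum_congr rfl fun k _ => ?_
    simp only [z]
    rw [map_smul, inner_smul_left, inner_smul_right, Complex.conj_ofReal, ← mul_assoc,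
      ← Complex.ofReal_mul, Real.mul_self_sqrt (ht0 j)]
  have hsq : ∀ (T : K →L[ℂ] K), ((∑ q, ‖T (z q)‖ ^ 2 : ℝ) : ℂ) =
      ∑ j, (t j : ℂ) * inner ℂ (ζ j) (R ((star T * T) ⊗ₜ[ℂ] (1 : K →L[ℂ] K)) (ζ j)) := by
    intro T
    rw [← hE, Complex.ofReal_sum]
    refine Finset.sum_congr rfl fun q _ => ?_
    rw [mul_apply_eq_comp, ContinuousLinearMap.star_eq_adjoint,
      ContinuousLinearMap.adjoint_inner_right, inner_self_eq_norm_sq_to_K]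
    norm_cast
  have hone : ∀ j, (inner ℂ (ζ j) (R ((1 : K →L[ℂ] K) ⊗ₜ[ℂ] (1 : K →L[ℂ] K)) (ζ j)) : ℂ) = 1 := by
    intro j
    rw [cn_R_one]
    have h1 : (inner ℂ (ζ j) (ζ j) : ℂ) = ((‖ζ j‖ : ℝ) : ℂ) ^ 2 :=
      inner_self_eq_norm_sq_to_K (𝕜 := ℂ) (ζ j)
    rw [h1, hζ]
    norm_num
  have key1 : ∑ q, ‖z q‖ ^ 2 = 1 := by
    have h1 := hsq 1
    rw [star_one, one_mul] at h1
    have h2 : ∑ j, (t j : ℂ) * inner ℂ (ζ j)
        (R ((1 : K →L[ℂ] K) ⊗ₜ[ℂ] (1 : K →L[ℂ] K)) (ζ j)) = 1 := by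
      rw [← ht1c]
      exact Finset.sum_congr rfl fun j _ => by rw [hone, mul_one]
    rw [h2] at h1
    exact_mod_cast h1
  -- invariance
  have key2 : ∀ g ∈ A, ∀ V : K →L[ℂ] K, ‖V‖ ≤ 1 →
      ‖∑ q, (inner ℂ (z q) (V (z q)) - inner ℂ ((v (s g) : K →L[ℂ] K) (z q))
        (V ((v (s g) : K →L[ℂ] K) (z q))) : ℂ)‖ ≤ ε := by
    intro g hg V hV
    set b : unitary (K →L[ℂ] K) := v (s g) with hb
    have h1 : ∀ q, (inner ℂ ((b : K →L[ℂ] K) (z q)) (V ((b : K →L[ℂ] K) (z q))) : ℂ) =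
        inner ℂ (z q) ((star (b : K →L[ℂ] K) * V * (b : K →L[ℂ] K)) (z q)) := by
      intro q
      rw [mul_apply_eq_comp, mul_apply_eq_comp, ContinuousLinearMap.star_eq_adjoint,
        ContinuousLinearMap.adjoint_inner_right]
    simp only [h1]
    rw [Finset.sum_sub_distrib, hE, hE, ← Finset.sum_sub_distrib]
    have h2 : ∀ j, ‖(t j : ℂ) * inner ℂ (ζ j) (R (V ⊗ₜ[ℂ] (1 : K →L[ℂ] K)) (ζ j)) -
        (t j : ℂ) * inner ℂ (ζ j) (R ((star (b : K →L[ℂ] K) * V * (b : K →L[ℂ] K)) ⊗ₜ[ℂ]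
          (1 : K →L[ℂ] K)) (ζ j))‖ ≤ t j * (ε / 2 + 2 / ε *
          (2 - 2 * (inner ℂ (ζ j) (R ((b : K →L[ℂ] K) ⊗ₜ[ℂ] (b : K →L[ℂ] K)) (ζ j)) : ℂ).re)) := by
      intro j
      rw [← mul_sub, norm_mul, Complex.norm_real, Real.norm_of_nonneg (ht0 j)]
      refine mul_le_mul_of_nonneg_left ?_ (ht0 j)
      refine (inv_bound b V hV (ζ j) (hζ j)).trans ?_
      have h3 := e_sub_sq (E := K ⊗[ℂ] K) (hζ j) ((R_unit_norm b b (ζ j)).trans (hζ j))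
      rw [← h3]
      set x := ‖ζ j - R ((b : K →L[ℂ] K) ⊗ₜ[ℂ] (b : K →L[ℂ] K)) (ζ j)‖
      have h4 : ε / 2 + 2 / ε * x ^ 2 - 2 * x = (ε - 2 * x) ^ 2 / (2 * ε) := by
        field_simp; ring
      have h5 : 0 ≤ (ε - 2 * x) ^ 2 / (2 * ε) := by positivity
      linarith
    refine (norm_sum_le _ _).trans ((Finset.sum_le_sum fun j _ => h2 j).trans ?_)
    have h6 := happ (s g, s g) (by
      simp only [I, Finset.mem_union, Finset.mem_image]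
      exact Or.inl (Or.inl ⟨g, hg, rfl⟩))
    rw [hκ1 _ rfl] at h6
    have h7 : ∑ j, t j * (ε / 2 + 2 / ε *
        (2 - 2 * (inner ℂ (ζ j) (R ((b : K →L[ℂ] K) ⊗ₜ[ℂ] (b : K →L[ℂ] K)) (ζ j)) : ℂ).re)) =
        ε / 2 + 2 / ε * (2 - 2 * (∑ j, (t j : ℂ) * inner ℂ (ζ j)
          (R ((b : K →L[ℂ] K) ⊗ₜ[ℂ] (b : K →L[ℂ] K)) (ζ j)) : ℂ).re) := by
      rw [Complex.re_sum]
      have h8 : ∀ j, t j * (ε / 2 + 2 / ε *
        (2 - 2 * (inner ℂ (ζ j) (R ((b : K →L[ℂ] K) ⊗ₜ[ℂ] (b : K →L[ℂ] K)) (ζ j)) : ℂ).re)) =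
        t j * (ε / 2 + 2 / ε * 2) - (2 / ε * 2) * ((t j : ℂ) * inner ℂ (ζ j)
          (R ((b : K →L[ℂ] K) ⊗ₜ[ℂ] (b : K →L[ℂ] K)) (ζ j)) : ℂ).re := by
        intro j
        rw [Complex.re_ofReal_mul]
        ring
      rw [Finset.sum_congr rfl fun j _ => h8 j, Finset.sum_sub_distrib, ← Finset.sum_mul, ht1,
        ← Finset.mul_sum]
      ring
    rw [h7]
    have h9 : 1 - δ ≤ (∑ j, (t j : ℂ) * inner ℂ (ζ j)
          (R ((b : K →L[ℂ] K) ⊗ₜ[ℂ] (b : K →L[ℂ] K)) (ζ j)) : ℂ).re := by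
      have h10 := (Complex.abs_re_le_norm _).trans h6
      rw [Complex.sub_re, Complex.one_re] at h10
      have := (abs_le.1 h10).1
      simp only [hb]
      linarith
    have h11 : 2 / ε * (2 - 2 * (∑ j, (t j : ℂ) * inner ℂ (ζ j)
          (R ((b : K →L[ℂ] K) ⊗ₜ[ℂ] (b : K →L[ℂ] K)) (ζ j)) : ℂ).re) ≤ 2 / ε * (2 * δ) :=
      mul_le_mul_of_nonneg_left (by linarith) (by positivity)
    have h12 : 2 / ε * (2 * δ) ≤ 2 / ε * (2 * (ε ^ 2 / 8)) :=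
      mul_le_mul_of_nonneg_left (by linarith) (by positivity)
    have h13 : 2 / ε * (2 * (ε ^ 2 / 8)) = ε / 2 := by field_simp; ring
    linarith
  -- multiplicativity
  have key4 : ∀ g ∈ A, ∀ h ∈ A, ∑ q, ‖((v (s (g * h)) : K →L[ℂ] K) -
      (v (s g) : K →L[ℂ] K) * (v (s h) : K →L[ℂ] K)) (z q)‖ ^ 2 ≤ ε := by
    intro g hg h hh
    set w : unitary (K →L[ℂ] K) := v (nn (g, h)) with hw
    have h1 : (v (s g) : K →L[ℂ] K) * (v (s h) : K →L[ℂ] K) =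
        (v (s (g * h)) : K →L[ℂ] K) * (w : K →L[ℂ] K) := by
      rw [hw, ← Submonoid.coe_mul, ← Submonoid.coe_mul, ← map_mul, ← map_mul]
      congr 2
      simp only [nn]
      group
    set T : K →L[ℂ] K := (v (s (g * h)) : K →L[ℂ] K) -
      (v (s g) : K →L[ℂ] K) * (v (s h) : K →L[ℂ] K) with hT
    have h2 : star T * T = (2 : ℂ) • (1 : K →L[ℂ] K) - (w : K →L[ℂ] K) - star (w : K →L[ℂ] K) := by
      rw [hT, h1]
      have e1 := u_star_mul (v (s (g * h)))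
      have e2 := u_star_mul w
      have e3 : (v (s (g * h)) : K →L[ℂ] K) - (v (s (g * h)) : K →L[ℂ] K) * (w : K →L[ℂ] K) =
          (v (s (g * h)) : K →L[ℂ] K) * (1 - (w : K →L[ℂ] K)) := by rw [mul_sub, mul_one]
      rw [e3, star_mul, mul_assoc, ← mul_assoc (star (v (s (g * h)) : K →L[ℂ] K)), e1, one_mul,
        star_sub, star_one, sub_mul, one_mul, mul_sub, mul_one, e2, two_smul]
      abel
    have h3 := hsq T
    rw [h2] at h3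
    have h4 : ∀ j, (inner ℂ (ζ j) (R (((2 : ℂ) • (1 : K →L[ℂ] K) - (w : K →L[ℂ] K) -
        star (w : K →L[ℂ] K)) ⊗ₜ[ℂ] (1 : K →L[ℂ] K)) (ζ j)) : ℂ).re =
        2 - 2 * (inner ℂ (ζ j) (R ((w : K →L[ℂ] K) ⊗ₜ[ℂ] (1 : K →L[ℂ] K)) (ζ j)) : ℂ).re := by
      intro j
      have h5 : (inner ℂ (ζ j) (R (star (w : K →L[ℂ] K) ⊗ₜ[ℂ] (1 : K →L[ℂ] K)) (ζ j)) : ℂ) =
          star (inner ℂ (ζ j) (R ((w : K →L[ℂ] K) ⊗ₜ[ℂ] (1 : K →L[ℂ] K)) (ζ j)) : ℂ) := by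
        have e1 := R_star ((w : K →L[ℂ] K) ⊗ₜ[ℂ] (1 : K →L[ℂ] K)) (ζ j) (ζ j)
        rw [TensorProduct.star_tmul, star_one] at e1
        rw [← e1]
        exact e_symm (E := K ⊗[ℂ] K) _ _
      have h6 : vf (ζ j) (((2 : ℂ) • (1 : K →L[ℂ] K) - (w : K →L[ℂ] K) -
          star (w : K →L[ℂ] K)) ⊗ₜ[ℂ] (1 : K →L[ℂ] K)) =
          2 * vf (ζ j) ((1 : K →L[ℂ] K) ⊗ₜ[ℂ] (1 : K →L[ℂ] K)) -
          vf (ζ j) ((w : K →L[ℂ] K) ⊗ₜ[ℂ] (1 : K →L[ℂ] K)) -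
          vf (ζ j) (star (w : K →L[ℂ] K) ⊗ₜ[ℂ] (1 : K →L[ℂ] K)) := by
        rw [TensorProduct.sub_tmul, TensorProduct.sub_tmul, ← TensorProduct.smul_tmul', map_sub,
          map_sub, map_smul, smul_eq_mul]
      rw [vf_apply, vf_apply, vf_apply, vf_apply, hone, h5] at h6
      rw [h6]
      simp
      ring
    have h7 : ∑ q, ‖T (z q)‖ ^ 2 = 2 - 2 * (∑ j, (t j : ℂ) * inner ℂ (ζ j)
        (R ((w : K →L[ℂ] K) ⊗ₜ[ℂ] (1 : K →L[ℂ] K)) (ζ j)) : ℂ).re := by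
      have h8 := congrArg Complex.re h3
      rw [Complex.ofReal_re, Complex.re_sum] at h8
      rw [h8, Complex.re_sum]
      have h9 : ∀ j, ((t j : ℂ) * inner ℂ (ζ j) (R (((2 : ℂ) • (1 : K →L[ℂ] K) - (w : K →L[ℂ] K) -
        star (w : K →L[ℂ] K)) ⊗ₜ[ℂ] (1 : K →L[ℂ] K)) (ζ j)) : ℂ).re = t j * 2 -
          2 * ((t j : ℂ) * inner ℂ (ζ j) (R ((w : K →L[ℂ] K) ⊗ₜ[ℂ] (1 : K →L[ℂ] K)) (ζ j)) : ℂ).re := by
        intro j
        rw [Complex.re_ofReal_mul, Complex.re_ofReal_mul, h4]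
        ring
      rw [Finset.sum_congr rfl fun j _ => h9 j, Finset.sum_sub_distrib, ← Finset.sum_mul, ht1,
        ← Finset.mul_sum]
      ring
    rw [h7]
    have h6 := happ (nn (g, h), 1) (by
      simp only [I, Finset.mem_union, Finset.mem_image]
      exact Or.inl (Or.inr ⟨(g, h), Finset.mem_product.2 ⟨hg, hh⟩, rfl⟩))
    rw [hκ1 _ (by rw [hnn, map_one])] at h6
    simp only [map_one, OneMemClass.coe_one] at h6
    have h10 := (Complex.abs_re_le_norm _).trans h6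
    rw [Complex.sub_re, Complex.one_re] at h10
    have := (abs_le.1 h10).1
    linarith
  have key5 : ∀ g ∈ A, g ≠ 1 → ‖∑ q, inner ℂ (z q) ((v (s g) : K →L[ℂ] K) (z q))‖ ≤ ε := by
    intro g hg hg1
    rw [hE]
    have h6 := happ (s g, 1) (by
      simp only [I, Finset.mem_union, Finset.mem_image]
      exact Or.inr ⟨g, hg, rfl⟩)
    rw [hκ0 _ (by rw [hs, map_one]; exact hg1), sub_zero] at h6
    simp only [map_one, OneMemClass.coe_one] at h6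
    linarith
  refine ⟨K, inferInstance, inferInstance, inferInstance, fun g => (v (s g) : K →L[ℂ] K),
    Fintype.card Idx, fun k => z (eq.symm k), ?_, ?_, ?_, ?_, ?_, ?_, ?_⟩
  · show (v (s 1) : K →L[ℂ] K) = 1
    rw [hs1, map_one]; rfl
  · exact fun g _ => u_norm_le _
  · rw [← key1]
    exact Equiv.sum_comp eq.symm fun q => ‖z q‖ ^ 2
  · intro g hg V hV
    rw [Equiv.sum_comp eq.symm fun q => ((inner ℂ (z q) (V (z q)) -
      inner ℂ ((v (s g) : K →L[ℂ] K) (z q)) (V ((v (s g) : K →L[ℂ] K) (z q))) : ℂ))]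
    exact key2 g hg V hV
  · intro g hg
    have h1 : ∀ k, ‖(1 - star (v (s g) : K →L[ℂ] K) * (v (s g) : K →L[ℂ] K)) (z (eq.symm k))‖ ^ 2
        = 0 := by
      intro k
      rw [u_star_mul, sub_self]
      simp
    rw [Finset.sum_congr rfl fun k _ => h1 k, Finset.sum_const_zero]
    exact hε.le
  · intro g hg h hh
    rw [Equiv.sum_comp eq.symm fun q => ‖((v (s (g * h)) : K →L[ℂ] K) -
      (v (s g) : K →L[ℂ] K) * (v (s h) : K →L[ℂ] K)) (z q)‖ ^ 2]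
    exact key4 g hg h hh
  · intro g hg hg1
    rw [Equiv.sum_comp eq.symm fun q => (inner ℂ (z q) ((v (s g) : K →L[ℂ] K) (z q)) : ℂ)]
    exact key5 g hg hg1

end Pool.Agent.U755.FN
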