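import Pool.Agent.U755.FN.Up

/-! The number of C*-norms. -/

set_option autoImplicit false
open scoped TensorProduct Cardinal

namespace Pool.Agent.U755.FN

open Pool.Agent.Helper965.CN (IsCStarNorm)

/-- The number of C*-norms on the algebraic tensor product of two complex *-algebras. -/
noncomputable def numNorms (A B : Type) [Ring A] [StarRing A] [Algebra ℂ A] [StarModule ℂ A]
    [Ring B] [StarRing B] [Algebra ℂ B] [StarModule ℂ B] : Cardinal.{0} :=
  #{N : A ⊗[ℂ] B → ℝ // IsCStarNorm N}

end Pool.Agent.U755.FN
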