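import Pool.Agent.Helper965.CN.Lim

/-! Vectors in the algebraic tensor square of a Hilbert space. -/

set_option autoImplicit false
set_option linter.unusedSectionVars false
open scoped TensorProduct ComplexOrder BigOperators InnerProductSpace

namespace Pool.Agent.U755.FN

open Pool.Agent.Helper965.CN (R R_tmul R_one R_mul R_star R_bdd cn_R_one cn_norm_sq cn_left
  cn_right exists_sum_tmul)

variable {K : Type} [NormedAddCommGroup K] [InnerProductSpace ℂ K] [CompleteSpace K]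

/-- a vector of the tensor square, expanded in an orthonormal family on the right -/
theorem exists_on (ζ : K ⊗[ℂ] K) :
    ∃ (n : ℕ) (a e : Fin n → K), Orthonormal ℂ e ∧ ζ = ∑ k, a k ⊗ₜ[ℂ] e k := by
  obtain ⟨m, a, c, rfl⟩ := exists_sum_tmul ζ
  let W : Submodule ℂ K := Submodule.span ℂ (Set.range c)
  haveI : FiniteDimensional ℂ W := FiniteDimensional.span_of_finite ℂ (Set.finite_range c)
  let b := stdOrthonormalBasis ℂ W
  have hcm : ∀ q, c q ∈ W := fun q => Submodule.subset_span ⟨q, rfl⟩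
  refine ⟨_, fun k => ∑ q, (inner ℂ (b k : K) (c q)) • a q, fun k => (b k : K), ?_, ?_⟩
  · exact b.orthonormal.comp_linearIsometry W.subtypeₗᵢ
  · have hc : ∀ q, c q = ∑ k, (inner ℂ (b k : K) (c q)) • (b k : K) := by
      intro q
      have h1 := b.sum_repr' (⟨c q, hcm q⟩ : W)
      have h2 := congrArg (Submodule.subtype W) h1
      rw [map_sum] at h2
      simp only [map_smul, Submodule.subtype_apply] at h2
      exact h2.symm
    calc ∑ q, a q ⊗ₜ[ℂ] c q = ∑ q, a q ⊗ₜ[ℂ] ∑ k, (inner ℂ (b k : K) (c q)) • (b k : K) :=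
          Finset.sum_congr rfl fun q _ => by rw [← hc]
      _ = ∑ q, ∑ k, ((inner ℂ (b k : K) (c q)) • a q) ⊗ₜ[ℂ] (b k : K) := by
          refine Finset.sum_congr rfl fun q _ => ?_
          rw [TensorProduct.tmul_sum]
          exact Finset.sum_congr rfl fun k _ => by rw [TensorProduct.smul_tmul]
      _ = _ := by
          rw [Finset.sum_comm]
          exact Finset.sum_congr rfl fun k _ => by rw [TensorProduct.sum_tmul]

/-- the left density of a vector -/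
theorem inner_on {n : ℕ} (a e : Fin n → K) (he : Orthonormal ℂ e) (T : K →L[ℂ] K) :
    (inner ℂ (∑ k, a k ⊗ₜ[ℂ] e k) (R (T ⊗ₜ[ℂ] (1 : K →L[ℂ] K)) (∑ k, a k ⊗ₜ[ℂ] e k)) : ℂ) =
      ∑ k, inner ℂ (a k) (T (a k)) := by
  rw [map_sum, sum_inner]
  refine Finset.sum_congr rfl fun k _ => ?_
  rw [inner_sum, Finset.sum_eq_single k]
  · rw [R_tmul, TensorProduct.map_tmul, TensorProduct.inner_tmul]
    have h1 : (inner ℂ (e k) (e k) : ℂ) = 1 := by
      have := orthonormal_iff_ite.1 he k k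
      simpa using this
    have h2 : ((1 : K →L[ℂ] K) : K →ₗ[ℂ] K) (e k) = e k := rfl
    rw [h2, h1, mul_one]
    rfl
  · intro l _ hl
    rw [R_tmul, TensorProduct.map_tmul, TensorProduct.inner_tmul]
    have h1 : (inner ℂ (e k) (e l) : ℂ) = 0 := he.2 (Ne.symm hl)
    have h2 : ((1 : K →L[ℂ] K) : K →ₗ[ℂ] K) (e l) = e l := rfl
    rw [h2, h1, mul_zero]
  · intro h
    exact absurd (Finset.mem_univ k) h

/-- a positive operator below a constant -/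
theorem norm_le_of_form {E : Type} [NormedAddCommGroup E] [InnerProductSpace ℂ E] (T : E →ₗ[ℂ] E)
    (hs : ∀ ζ η, (inner ℂ (T ζ) η : ℂ) = inner ℂ ζ (T η)) (C : ℝ) (hC : 0 < C)
    (h0 : ∀ ζ, 0 ≤ (inner ℂ ζ (T ζ) : ℂ).re) (h1 : ∀ ζ, (inner ℂ ζ (T ζ) : ℂ).re ≤ C * ‖ζ‖ ^ 2)
    (ζ : E) : ‖T ζ‖ ≤ C * ‖ζ‖ := by
  have e1 : ∀ t : ℝ, (inner ℂ (ζ - (t : ℂ) • T ζ) (T (ζ - (t : ℂ) • T ζ)) : ℂ).re =
      (inner ℂ ζ (T ζ) : ℂ).re - 2 * t * ‖T ζ‖ ^ 2 + t ^ 2 * (inner ℂ (T ζ) (T (T ζ)) : ℂ).re := by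
    intro t
    have h2 : (inner ℂ (T ζ) (T ζ) : ℂ) = ((‖T ζ‖ ^ 2 : ℝ) : ℂ) := by
      rw [inner_self_eq_norm_sq_to_K]; push_cast; rfl
    have h3 : (inner ℂ ζ (T (T ζ)) : ℂ) = ((‖T ζ‖ ^ 2 : ℝ) : ℂ) := by
      rw [← hs, h2]
    rw [map_sub, map_smul, inner_sub_left, inner_sub_right, inner_sub_right, inner_smul_left,
      inner_smul_left, inner_smul_right, inner_smul_right, h2, h3]
    simp only [Complex.conj_ofReal, Complex.sub_re, Complex.mul_re, Complex.ofReal_re,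
      Complex.ofReal_im, zero_mul, sub_zero, Complex.mul_im]
    ring
  have h2 := h0 (ζ - ((1 / C : ℝ) : ℂ) • T ζ)
  rw [e1] at h2
  have h3 := h1 ζ
  have h4 := h1 (T ζ)
  have h5 : (1 / C) ^ 2 * (inner ℂ (T ζ) (T (T ζ)) : ℂ).re ≤ (1 / C) ^ 2 * (C * ‖T ζ‖ ^ 2) :=
    mul_le_mul_of_nonneg_left h4 (by positivity)
  have h6 : (1 / C) ^ 2 * (C * ‖T ζ‖ ^ 2) = ‖T ζ‖ ^ 2 / C := by field_simp
  have h7 : 2 * (1 / C) * ‖T ζ‖ ^ 2 = 2 * (‖T ζ‖ ^ 2 / C) := by ring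
  have h8 : ‖T ζ‖ ^ 2 / C ≤ C * ‖ζ‖ ^ 2 := by linarith
  have h9 : ‖T ζ‖ ^ 2 ≤ (C * ‖ζ‖) ^ 2 := by
    rw [div_le_iff₀ hC] at h8
    nlinarith
  exact abs_le_of_sq_le_sq' h9 (by positivity) |>.2

end Pool.Agent.U755.FN
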