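import Pool.Agent.U755.FN.Appr

/-! The key inequality: for a group which is not hyperlinear the functional of the two-sided
regular representation is not dominated by the norm of a tensor square. -/

set_option autoImplicit false
set_option linter.unusedSectionVars false
open scoped TensorProduct ComplexOrder BigOperators InnerProductSpace

namespace Pool.Agent.U755.FN

open Pool.Agent.Helper965.CN (R R_tmul R_one vf vf_apply R_star R_bdd cn_R_one cn_norm_sq cn_left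
  cn_right exists_sum_tmul)
open Pool.Agent.H21R2 (IsHyperlinear)

section abs

variable {E : Type} [NormedAddCommGroup E] [InnerProductSpace ℂ E]

theorem e_inner_smul (T : E →ₗ[ℂ] E) (c : ℝ) (ζ : E) :
    (inner ℂ ((c : ℂ) • ζ) (T ((c : ℂ) • ζ)) : ℂ) = ((c ^ 2 : ℝ) : ℂ) * inner ℂ ζ (T ζ) := by
  rw [map_smul, inner_smul_left, inner_smul_right, Complex.conj_ofReal, ← mul_assoc,
    ← Complex.ofReal_mul, sq]

theorem e_scale (T : E →ₗ[ℂ] E) (u : ℝ) (h : ∀ ζ, ‖ζ‖ = 1 → (inner ℂ ζ (T ζ) : ℂ).re ≤ u) (ζ : E) :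
    (inner ℂ ζ (T ζ) : ℂ).re ≤ u * ‖ζ‖ ^ 2 := by
  rcases eq_or_ne ζ 0 with h0 | h0
  · subst h0; simp
  · have hn : 0 < ‖ζ‖ := norm_pos_iff.2 h0
    have h1 : ‖((‖ζ‖⁻¹ : ℝ) : ℂ) • ζ‖ = 1 := by
      rw [norm_smul, Complex.norm_real, norm_inv, norm_norm, inv_mul_cancel₀ hn.ne']
    have h2 := h _ h1
    rw [e_inner_smul, Complex.re_ofReal_mul] at h2
    have h3 : (inner ℂ ζ (T ζ) : ℂ).re = ‖ζ‖ ^ 2 * ((‖ζ‖⁻¹) ^ 2 * (inner ℂ ζ (T ζ) : ℂ).re) := by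
      field_simp
    rw [h3, mul_comm u]
    exact mul_le_mul_of_nonneg_left h2 (by positivity)

theorem e_cs {S : E →ₗ[ℂ] E} {M : ℝ} (hS : ∀ x, ‖S x‖ ≤ M * ‖x‖) (ζ : E) :
    |(inner ℂ ζ (S ζ) : ℂ).re| ≤ M * ‖ζ‖ ^ 2 := by
  refine (Complex.abs_re_le_norm _).trans ((norm_inner_le_norm _ _).trans ?_)
  have := hS ζ
  nlinarith [norm_nonneg ζ]

theorem e_self (ζ : E) : (inner ℂ ζ ζ : ℂ) = ((‖ζ‖ ^ 2 : ℝ) : ℂ) := by
  rw [inner_self_eq_norm_sq_to_K]; push_cast; rfl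

end abs

variable {K : Type} [NormedAddCommGroup K] [InnerProductSpace ℂ K] [CompleteSpace K]

theorem vf_star (ζ : K ⊗[ℂ] K) (t : (K →L[ℂ] K) ⊗[ℂ] (K →L[ℂ] K)) :
    vf ζ (star t) = star (vf ζ t) := by
  rw [vf_apply, vf_apply, ← R_star]
  exact e_symm (E := K ⊗[ℂ] K) _ _

theorem key {G F P : Type} [Group G] [Group F] [AddCommGroup P] [Module ℂ P] [Nontrivial K]
    (hG : ¬ IsHyperlinear G) (ψ : F →* G) (hψ : Function.Surjective ψ)
    (v : F →* unitary (K →L[ℂ] K)) (x : F × F → P)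
    (Λ : P →ₗ[ℂ] (K →L[ℂ] K) ⊗[ℂ] (K →L[ℂ] K))
    (hΛ : ∀ p, Λ (x p) = (v p.1 : K →L[ℂ] K) ⊗ₜ[ℂ] (v p.2 : K →L[ℂ] K))
    (φ : P →ₗ[ℂ] ℂ) (h1 : ∀ p, ψ p.1 = ψ p.2 → φ (x p) = 1)
    (h0 : ∀ p, ψ p.1 ≠ ψ p.2 → φ (x p) = 0) :
    ∃ y : P, y ∈ Submodule.span ℂ (Set.range x) ∧ ∃ C : ℝ, 0 ≤ C ∧
      (∀ ζ, ‖R (Λ y) ζ‖ ≤ C * ‖ζ‖) ∧ C < ‖φ y‖ := by
  classical
  by_contra hcon
  apply hG
  refine hyper_of_approx ψ hψ v (fun p => φ (x p)) h1 h0 fun I δ hδ => ?_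
  let S : Set (I → ℂ) := {w | ∃ ζ : K ⊗[ℂ] K, ‖ζ‖ = 1 ∧ w = fun i => vf ζ (Λ (x i.1))}
  let p0 : I → ℂ := fun i => φ (x i.1)
  have hp0 : p0 ∈ closure (convexHull ℝ S) := by
    by_contra hn
    obtain ⟨f, u, hf1, hf2⟩ := RCLike.geometric_hahn_banach_closed_point (𝕜 := ℂ)
      (convex_convexHull ℝ S).closure isClosed_closure hn
    let c : I → ℂ := fun i => f (fun j => if i = j then 1 else 0)
    have hfc : ∀ w : I → ℂ, f w = ∑ i, c i * w i := by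
      intro w
      have := LinearMap.pi_apply_eq_sum_univ (f : (I → ℂ) →ₗ[ℂ] ℂ) w
      rw [ContinuousLinearMap.coe_coe] at this
      rw [this]
      exact Finset.sum_congr rfl fun i _ => by rw [smul_eq_mul, mul_comm]
    set X : P := ∑ i, c i • x i.1 with hX
    obtain ⟨M, hM0, hM⟩ := R_bdd (Λ X)
    have hvX : ∀ ζ, vf ζ (Λ X) = ∑ i, c i * vf ζ (Λ (x i.1)) := by
      intro ζ
      rw [hX, map_sum, map_sum]
      exact Finset.sum_congr rfl fun i _ => by rw [map_smul, map_smul, smul_eq_mul]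
    set y : P := X + ∑ i, star (c i) • x (i.1)⁻¹ + ((2 * M : ℝ) : ℂ) • x 1 with hy
    have hΛinv : ∀ p, Λ (x p⁻¹) = star (Λ (x p)) := by
      intro p
      rw [hΛ, hΛ, TensorProduct.star_tmul]
      simp only [Prod.fst_inv, Prod.snd_inv, map_inv]
      rfl
    have hΛ1 : Λ (x 1) = (1 : K →L[ℂ] K) ⊗ₜ[ℂ] (1 : K →L[ℂ] K) := by
      rw [hΛ]
      simp
    have hΛX : star (Λ X) = ∑ i, star (c i) • Λ (x (i.1)⁻¹) := by
      rw [hX, map_sum, star_sum]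
      exact Finset.sum_congr rfl fun i _ => by rw [map_smul, star_smul, hΛinv]
    have hΛy : Λ y = Λ X + star (Λ X) + ((2 * M : ℝ) : ℂ) • ((1 : K →L[ℂ] K) ⊗ₜ[ℂ] (1 : K →L[ℂ] K)) := by
      have hs : Λ (∑ i, star (c i) • x (i.1)⁻¹) = ∑ i, star (c i) • Λ (x (i.1)⁻¹) := by
        rw [map_sum]
        exact Finset.sum_congr rfl fun i _ => by rw [map_smul]
      rw [hy, map_add, map_add, map_smul, hΛ1, hΛX, hs]
    have hstar : star (Λ y) = Λ y := by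
      rw [hΛy, star_add, star_add, star_star, star_smul, TensorProduct.star_tmul, star_one]
      have e : star ((2 * M : ℝ) : ℂ) = ((2 * M : ℝ) : ℂ) := Complex.conj_ofReal _
      rw [e, add_comm (star (Λ X))]
    have hform : ∀ ζ, (inner ℂ ζ (R (Λ y) ζ) : ℂ).re =
        2 * (inner ℂ ζ (R (Λ X) ζ) : ℂ).re + 2 * M * ‖ζ‖ ^ 2 := by
      intro ζ
      rw [← vf_apply, ← vf_apply, hΛy, map_add, map_add, map_smul, vf_star, vf_apply ζ (1 ⊗ₜ[ℂ] 1),
        cn_R_one]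
      have e : (inner ℂ ζ ζ : ℂ) = ((‖ζ‖ ^ 2 : ℝ) : ℂ) := e_self (E := K ⊗[ℂ] K) ζ
      rw [e, smul_eq_mul, Complex.add_re, Complex.add_re, Complex.re_ofReal_mul,
        Complex.ofReal_re]
      have e2 : (star (vf ζ (Λ X))).re = (vf ζ (Λ X)).re := Complex.conj_re _
      rw [e2]
      ring
    have hlt : ∀ ζ, ‖ζ‖ = 1 → (inner ℂ ζ (R (Λ X) ζ) : ℂ).re < u := by
      intro ζ hζ
      have h3 := hf1 _ (subset_closure (subset_convexHull ℝ S ⟨ζ, hζ, rfl⟩))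
      rw [hfc] at h3
      rw [← vf_apply, hvX]
      exact h3
    have hup : ∀ ζ, (inner ℂ ζ (R (Λ X) ζ) : ℂ).re ≤ u * ‖ζ‖ ^ 2 := fun ζ =>
      e_scale (E := K ⊗[ℂ] K) (R (Λ X)) u (fun ζ hζ => (hlt ζ hζ).le) ζ
    have habs : ∀ ζ, |(inner ℂ ζ (R (Λ X) ζ) : ℂ).re| ≤ M * ‖ζ‖ ^ 2 := fun ζ =>
      e_cs (E := K ⊗[ℂ] K) hM ζ
    obtain ⟨ζ0, hζ0⟩ : ∃ ζ0 : K ⊗[ℂ] K, ‖ζ0‖ = 1 := by
      obtain ⟨e, he⟩ := exists_norm_eq K zero_le_one
      refine ⟨e ⊗ₜ[ℂ] e, ?_⟩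
      rw [TensorProduct.norm_tmul, he, mul_one]
    have hCpos : 0 < 2 * (u + M) := by
      have h3 := hlt ζ0 hζ0
      have h4 := habs ζ0
      rw [hζ0, one_pow, mul_one] at h4
      have := (abs_le.1 h4).1
      linarith
    have hbd : ∀ ζ, ‖R (Λ y) ζ‖ ≤ 2 * (u + M) * ‖ζ‖ := by
      intro ζ
      refine norm_le_of_form (E := K ⊗[ℂ] K) (R (Λ y)) (fun ζ η => ?_) _ hCpos (fun ζ => ?_)
        (fun ζ => ?_) ζ
      · have := R_star (Λ y) ζ η
        rw [hstar] at this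
        exact this
      · rw [hform]
        have := (abs_le.1 (habs ζ)).1
        linarith
      · rw [hform]
        have := hup ζ
        nlinarith
    apply hcon
    refine ⟨y, ?_, 2 * (u + M), hCpos.le, hbd, ?_⟩
    · refine Submodule.add_mem _ (Submodule.add_mem _ ?_ ?_) ?_
      · exact Submodule.sum_mem _ fun i _ => Submodule.smul_mem _ _ (Submodule.subset_span ⟨_, rfl⟩)
      · exact Submodule.sum_mem _ fun i _ => Submodule.smul_mem _ _ (Submodule.subset_span ⟨_, rfl⟩)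
      · exact Submodule.smul_mem _ _ (Submodule.subset_span ⟨_, rfl⟩)
    · have hinv : ∀ p, φ (x p⁻¹) = star (φ (x p)) := by
        intro p
        by_cases hp : ψ p.1 = ψ p.2
        · rw [h1 p hp, h1 p⁻¹ (by simp [hp]), star_one]
        · rw [h0 p hp, h0 p⁻¹ (by simpa using hp), star_zero]
      have hφX : φ X = f p0 := by
        rw [hfc, hX, map_sum]
        exact Finset.sum_congr rfl fun i _ => by rw [map_smul, smul_eq_mul]
      have hφ2 : φ (∑ i, star (c i) • x (i.1)⁻¹) = star (φ X) := by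
        rw [hX, map_sum, map_sum, star_sum]
        exact Finset.sum_congr rfl fun i _ => by
          rw [map_smul, map_smul, hinv, smul_eq_mul, smul_eq_mul, star_mul']
      have hφ1 : φ (x 1) = 1 := h1 1 rfl
      have hre : (φ y).re = 2 * (f p0).re + 2 * M := by
        rw [hy, map_add, map_add, map_smul, hφ2, hφ1, hφX, smul_eq_mul, mul_one, Complex.add_re,
          Complex.add_re, Complex.ofReal_re]
        have e2 : (star (f p0)).re = (f p0).re := Complex.conj_re _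
        rw [e2]
        ring
      have h3 : u < (f p0).re := hf2
      have h4 := Complex.re_le_norm (φ y)
      rw [hre] at h4
      linarith
  rw [Metric.mem_closure_iff] at hp0
  obtain ⟨w, hw, hwd⟩ := hp0 δ hδ
  rw [mem_convexHull_iff_exists_fintype] at hw
  obtain ⟨J, _, t, z, ht0, ht1, hz, hzw⟩ := hw
  choose ζ hζ hζz using hz
  refine ⟨J, inferInstance, t, ζ, ht0, ht1, hζ, fun p hp => ?_⟩
  have h3 : (∑ j, (t j : ℂ) * inner ℂ (ζ j)
      (R ((v p.1 : K →L[ℂ] K) ⊗ₜ[ℂ] (v p.2 : K →L[ℂ] K)) (ζ j))) = w ⟨p, hp⟩ := by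
    rw [← hzw, Finset.sum_apply]
    refine Finset.sum_congr rfl fun j _ => ?_
    rw [hζz j, ← vf_apply, ← hΛ]
    show _ = t j • vf (ζ j) (Λ (x p))
    rw [Complex.real_smul]
  rw [h3]
  have h4 := dist_le_pi_dist w p0 ⟨p, hp⟩
  rw [dist_eq_norm] at h4
  rw [dist_comm] at hwd
  exact h4.trans hwd.le

end Pool.Agent.U755.FN
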