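import Pool.Agent.U755.FN.KL
import Pool.Agent.N557.QW.Base
import Pool.Agent.Y512.FGC.Exist

/-! Commuting representations of the full group C*-algebra of the free group of infinite rank and
the positive functionals they define on the algebraic tensor square. -/

set_option autoImplicit false
set_option linter.unusedSectionVars false
open scoped TensorProduct ComplexOrder BigOperators InnerProductSpace

noncomputable section

namespace Pool.Agent.U755.FN

open Pool.Agent.H516R3.Alt (IsFullGroupCStar)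
open Pool.Agent.Y512.FGC (hom_cont dense_ind hom_ext_full)
open Pool.Agent.H494R3.GT (L2 dl dl_inner op_ext mul_ap)
open Pool.Agent.N557.QW (lam rgt lam_dl rgt_dl star_lam star_rgt lam_one lam_mul lam_rgt)

/-- the indices `Sum.inl n` are used for the group, `Sum.inr n` for signs -/
abbrev EE : ℕ ⊕ ℕ ≃ ℕ := Equiv.natSumNatEquivNat

section homs

variable {G : Type} [Group G] (e : ℕ → G)

/-- the homomorphism to the group which forgets the sign generators -/
def psi : FreeGroup ℕ →* G := FreeGroup.lift fun k => Sum.elim e (fun _ => 1) (EE.symm k)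

/-- the homomorphism from the subgroup of the group generators -/
def psi0 : FreeGroup ℕ →* G := FreeGroup.lift e

/-- the inclusion of the subgroup of the group generators -/
def iot : FreeGroup ℕ →* FreeGroup ℕ := FreeGroup.map fun n => EE (Sum.inl n)

/-- the sign generators -/
def og (n : ℕ) : FreeGroup ℕ := FreeGroup.of (EE (Sum.inr n))

/-- the sign characters -/
def chi (s : ℕ → Bool) : FreeGroup ℕ →* ℂˣ :=
  FreeGroup.lift fun k => Sum.elim (fun _ => 1) (fun n => if s n then -1 else 1) (EE.symm k)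

lemma psi_iot (g : FreeGroup ℕ) : psi e (iot g) = psi0 e g := by
  have : (psi e).comp iot = psi0 e := by
    ext n
    simp [psi, psi0, iot]
  rw [← this]; rfl

lemma psi_og (n : ℕ) : psi e (og n) = 1 := by
  simp [psi, og]

lemma chi_iot (s : ℕ → Bool) (g : FreeGroup ℕ) : chi s (iot g) = 1 := by
  have : (chi s).comp iot = 1 := by
    ext n
    simp [chi, iot]
  have h := congrArg (fun f : FreeGroup ℕ →* ℂˣ => f g) this
  exact h

lemma chi_og (s : ℕ → Bool) (n : ℕ) : chi s (og n) = if s n then -1 else 1 := by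
  simp [chi, og]

lemma chi_norm (s : ℕ → Bool) (g : FreeGroup ℕ) : star ((chi s g : ℂˣ) : ℂ) * (chi s g : ℂˣ) = 1 := by
  have h : ∀ g, ((chi s g : ℂˣ) : ℂ) = 1 ∨ ((chi s g : ℂˣ) : ℂ) = -1 := by
    intro g
    induction g using FreeGroup.induction_on with
    | C1 => left; simp
    | of k =>
      have h1 : chi s (FreeGroup.of k) =
          Sum.elim (fun _ => 1) (fun n => if s n then -1 else 1) (EE.symm k) := by
        rw [chi, FreeGroup.lift_apply_of]
      rcases hk : EE.symm k with m | m
      · left; rw [h1, hk]; rfl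
      · rw [h1, hk, Sum.elim_inr]
        by_cases hm : s m = true
        · right; rw [if_pos hm]; rfl
        · left; rw [if_neg hm]; rfl
    | inv_of k hk =>
      rw [map_inv, Units.val_inv_eq_inv_val]
      rcases hk with hk | hk <;> rw [hk] <;> norm_num
    | mul x y hx hy =>
      rw [map_mul, Units.val_mul]
      rcases hx with hx | hx <;> rcases hy with hy | hy <;> rw [hx, hy] <;> norm_num
  rcases h g with h | h <;> rw [h] <;> simp

/-- left representation -/
def LU (s : ℕ → Bool) : FreeGroup ℕ →* unitary (L2 G →L[ℂ] L2 G) where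
  toFun g := ⟨((chi s g : ℂˣ) : ℂ) • lam (psi e g), Unitary.mem_iff.2 (by
    have h1 := chi_norm s g
    have h2 : ((chi s g : ℂˣ) : ℂ) * star ((chi s g : ℂˣ) : ℂ) = 1 := by rw [mul_comm]; exact h1
    rw [star_smul, smul_mul_smul_comm, smul_mul_smul_comm, h1, h2, star_lam, ← lam_mul, ← lam_mul,
      inv_mul_cancel, mul_inv_cancel, lam_one, one_smul]
    exact ⟨rfl, rfl⟩)⟩
  map_one' := Subtype.ext (by
    show ((chi s 1 : ℂˣ) : ℂ) • lam (psi e 1) = 1
    rw [map_one, map_one, lam_one, Units.val_one, one_smul])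
  map_mul' g h := Subtype.ext (by
    show ((chi s (g * h) : ℂˣ) : ℂ) • lam (psi e (g * h)) =
      (((chi s g : ℂˣ) : ℂ) • lam (psi e g)) * (((chi s h : ℂˣ) : ℂ) • lam (psi e h))
    rw [map_mul, map_mul, lam_mul, Units.val_mul, smul_mul_smul_comm])

lemma LU_coe (s : ℕ → Bool) (g : FreeGroup ℕ) :
    (LU e s g : L2 G →L[ℂ] L2 G) = ((chi s g : ℂˣ) : ℂ) • lam (psi e g) := rfl

lemma rgt_mul' (g h : G) : rgt (h * g) = rgt g * rgt h := op_ext fun s => by
  rw [mul_ap, rgt_dl, rgt_dl, rgt_dl, mul_assoc]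

lemma rgt_one' : rgt (1 : G) = 1 := op_ext fun s => by rw [rgt_dl, mul_one]; rfl

/-- right representation -/
def RU : FreeGroup ℕ →* unitary (L2 G →L[ℂ] L2 G) where
  toFun g := ⟨rgt (psi e g)⁻¹, Unitary.mem_iff.2 (by
    rw [star_rgt, ← rgt_mul', ← rgt_mul', inv_inv, inv_mul_cancel, mul_inv_cancel, rgt_one']
    exact ⟨rfl, rfl⟩)⟩
  map_one' := Subtype.ext (by
    show rgt (psi e 1)⁻¹ = 1
    rw [map_one, inv_one, rgt_one'])
  map_mul' g h := Subtype.ext (by
    show rgt (psi e (g * h))⁻¹ = rgt (psi e g)⁻¹ * rgt (psi e h)⁻¹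
    rw [map_mul, mul_inv_rev, rgt_mul'])

lemma RU_coe (g : FreeGroup ℕ) : (RU e g : L2 G →L[ℂ] L2 G) = rgt (psi e g)⁻¹ := rfl

lemma LU_RU (s : ℕ → Bool) (g h : FreeGroup ℕ) :
    (LU e s g : L2 G →L[ℂ] L2 G) * (RU e h : L2 G →L[ℂ] L2 G) =
      (RU e h : L2 G →L[ℂ] L2 G) * (LU e s g : L2 G →L[ℂ] L2 G) := by
  rw [LU_coe, RU_coe, smul_mul_assoc, mul_smul_comm, lam_rgt]

end homs

section ext

variable {A : Type} [CStarAlgebra A] {u : FreeGroup ℕ →* unitary A}
  (hA : IsFullGroupCStar (FreeGroup ℕ) A u)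

include hA

theorem commute_of_gen {B : Type} [CStarAlgebra B] (f g : A →⋆ₐ[ℂ] B)
    (h : ∀ x y, f (u x) * g (u y) = g (u y) * f (u x)) (a b : A) : Commute (f a) (g b) := by
  have h1 : ∀ x, ∀ b : A, f (u x) * g b = g b * f (u x) := by
    intro x
    let S : Submodule ℂ A :=
      { carrier := {b | f (u x) * g b = g b * f (u x)}
        add_mem' := by
          intro p q hp hq
          simp only [Set.mem_ofPred_eq] at hp hq ⊢
          rw [map_add, mul_add, add_mul, hp, hq]
        zero_mem' := by simp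
        smul_mem' := by
          intro c p hp
          simp only [Set.mem_ofPred_eq] at hp ⊢
          rw [map_smul, mul_smul_comm, smul_mul_assoc, hp] }
    exact dense_ind hA S (isClosed_eq (continuous_const.mul (hom_cont g))
      ((hom_cont g).mul continuous_const)) fun y => h x y
  let T : Submodule ℂ A :=
    { carrier := {a | f a * g b = g b * f a}
      add_mem' := by
        intro p q hp hq
        simp only [Set.mem_ofPred_eq] at hp hq ⊢
        rw [map_add, mul_add, add_mul, hp, hq]
      zero_mem' := by simp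
      smul_mem' := by
        intro c p hp
        simp only [Set.mem_ofPred_eq] at hp ⊢
        rw [map_smul, mul_smul_comm, smul_mul_assoc, hp] }
  exact dense_ind hA T (isClosed_eq ((hom_cont f).mul continuous_const)
      (continuous_const.mul (hom_cont f))) (fun x => h1 x b) a

end ext

section vec

variable {P L : Type} [Ring P] [StarRing P] [Algebra ℂ P] [StarModule ℂ P]
  [NormedAddCommGroup L] [InnerProductSpace ℂ L] [CompleteSpace L]

/-- the functional of a vector -/
def vecF (V : P →ₐ[ℂ] (L →L[ℂ] L)) (ξ : L) : P →ₗ[ℂ] ℂ where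
  toFun t := inner ℂ ξ (V t ξ)
  map_add' s t := by rw [map_add, add_apply, inner_add_right]
  map_smul' c t := by
    rw [map_smul, smul_apply, inner_smul_right, RingHom.id_apply, smul_eq_mul]

lemma vecF_apply (V : P →ₐ[ℂ] (L →L[ℂ] L)) (ξ : L) (t : P) : vecF V ξ t = inner ℂ ξ (V t ξ) := rfl

lemma vecF_star (V : P →ₐ[ℂ] (L →L[ℂ] L)) (hV : ∀ t, V (star t) = star (V t)) (ξ : L) (t : P) :
    vecF V ξ (star t * t) = ((‖V t ξ‖ ^ 2 : ℝ) : ℂ) := by
  rw [vecF_apply, map_mul, hV, mul_apply_eq_comp, ContinuousLinearMap.star_eq_adjoint,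
    ContinuousLinearMap.adjoint_inner_right, inner_self_eq_norm_sq_to_K]
  norm_cast

lemma vecF_conj (V : P →ₐ[ℂ] (L →L[ℂ] L)) (hV : ∀ t, V (star t) = star (V t)) (ξ : L) (t w : P) :
    vecF V ξ (star w * (star t * t) * w) = ((‖V (t * w) ξ‖ ^ 2 : ℝ) : ℂ) := by
  have e : star w * (star t * t) * w = star (t * w) * (t * w) := by
    rw [star_mul]; simp only [mul_assoc]
  rw [e, vecF_star V hV]

end vec

section main

variable {A : Type} [CStarAlgebra A]

/-- a pair of commuting *-homomorphisms defines a representation of the tensor product -/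
theorem exists_pair {L : Type} [NormedAddCommGroup L] [InnerProductSpace ℂ L] [CompleteSpace L]
    (f g : A →⋆ₐ[ℂ] (L →L[ℂ] L)) (h : ∀ a b, Commute (f a) (g b)) :
    ∃ V : A ⊗[ℂ] A →ₐ[ℂ] (L →L[ℂ] L), (∀ a b, V (a ⊗ₜ b) = f a * g b) ∧
      ∀ t, V (star t) = star (V t) := by
  let V : A ⊗[ℂ] A →ₐ[ℂ] (L →L[ℂ] L) :=
    Algebra.TensorProduct.lift (f : A →ₐ[ℂ] (L →L[ℂ] L)) (g : A →ₐ[ℂ] (L →L[ℂ] L)) h
  have hV : ∀ a b, V (a ⊗ₜ b) = f a * g b := by
    intro a b
    exact Algebra.TensorProduct.lift_tmul _ _ h a b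
  refine ⟨V, hV, fun t => ?_⟩
  induction t using TensorProduct.induction_on with
  | zero => rw [star_zero, map_zero, star_zero]
  | tmul a b => rw [TensorProduct.star_tmul, hV, hV, star_mul, ← map_star f, ← map_star g, (h _ _).eq]
  | add x y hx hy => rw [star_add, map_add, map_add, star_add, hx, hy]

end main

end Pool.Agent.U755.FN
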