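import Pool.Agent.U755.FN.Low

/-! At most continuum many C*-norms on the algebraic tensor square of a separable C*-algebra, and
the count for the free group of infinite rank. -/

set_option autoImplicit false
set_option linter.unusedSectionVars false
open scoped TensorProduct ComplexOrder BigOperators InnerProductSpace Cardinal

noncomputable section

namespace Pool.Agent.U755.FN

open Pool.Agent.Helper965.CN (IsCStarNorm)
open Pool.Agent.H516R3.Alt (IsFullGroupCStar)

variable {A : Type} [CStarAlgebra A]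

section bound

variable {N : A ⊗[ℂ] A → ℝ} (hN : IsCStarNorm N)

include hN

theorem N_zero : N 0 = 0 := by
  have := hN.smul 0 0
  rwa [zero_smul, norm_zero, zero_mul] at this

theorem N_neg (x : A ⊗[ℂ] A) : N (-x) = N x := by
  have := hN.smul (-1) x
  rwa [neg_one_smul, norm_neg, norm_one, one_mul] at this

theorem N_one : N 1 ≤ 1 := by
  have h := hN.cstar 1
  rw [star_one, one_mul] at h
  nlinarith [hN.nonneg 1]

theorem N_unit (a b : unitary A) : N ((a : A) ⊗ₜ[ℂ] (b : A)) ≤ 1 := by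
  have h := hN.cstar ((a : A) ⊗ₜ[ℂ] (b : A))
  have h1 : star (a : A) * (a : A) = 1 := Unitary.coe_star_mul_self _
  have h2 : star (b : A) * (b : A) = 1 := Unitary.coe_star_mul_self _
  rw [TensorProduct.star_tmul, Algebra.TensorProduct.tmul_mul_tmul, h1, h2,
    ← Algebra.TensorProduct.one_def] at h
  have h3 := N_one hN
  have h4 := hN.nonneg ((a : A) ⊗ₜ[ℂ] (b : A))
  nlinarith

theorem N_sum {ι : Type} (s : Finset ι) (f : ι → A ⊗[ℂ] A) : N (∑ i ∈ s, f i) ≤ ∑ i ∈ s, N (f i) := by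
  classical
  induction s using Finset.induction_on with
  | empty => simp [N_zero hN]
  | insert i s hi ih =>
    rw [Finset.sum_insert hi, Finset.sum_insert hi]
    have := hN.add_le (f i) (∑ i ∈ s, f i)
    linarith

theorem N_tmul (a b : A) : N (a ⊗ₜ[ℂ] b) ≤ 4 * ‖a‖ * ‖b‖ := by
  obtain ⟨v, c, hc, hc'⟩ := CStarAlgebra.exists_sum_four_unitary a
  obtain ⟨w, d, hd, hd'⟩ := CStarAlgebra.exists_sum_four_unitary b
  have h1 : a ⊗ₜ[ℂ] b = ∑ i, ∑ j, (c i * d j) • ((v i : A) ⊗ₜ[ℂ] (w j : A)) := by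
    conv_lhs => rw [hc, hd]
    rw [TensorProduct.sum_tmul]
    refine Finset.sum_congr rfl fun i _ => ?_
    rw [TensorProduct.tmul_sum]
    refine Finset.sum_congr rfl fun j _ => ?_
    rw [TensorProduct.smul_tmul_smul]
  rw [h1]
  refine (N_sum hN _ _).trans ?_
  have h2 : ∀ i, N (∑ j, (c i * d j) • ((v i : A) ⊗ₜ[ℂ] (w j : A))) ≤ ‖a‖ * ‖b‖ := by
    intro i
    refine (N_sum hN _ _).trans ?_
    have h3 : ∀ j, N ((c i * d j) • ((v i : A) ⊗ₜ[ℂ] (w j : A))) ≤ ‖a‖ * ‖b‖ / 4 := by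
      intro j
      rw [hN.smul, norm_mul]
      have h4 := N_unit hN (v i) (w j)
      have h5 := hN.nonneg ((v i : A) ⊗ₜ[ℂ] (w j : A))
      have h6 := hc' i
      have h7 := hd' j
      calc ‖c i‖ * ‖d j‖ * N ((v i : A) ⊗ₜ[ℂ] (w j : A)) ≤ (‖a‖ / 2) * (‖b‖ / 2) * 1 := by gcongr
        _ = ‖a‖ * ‖b‖ / 4 := by ring
    calc ∑ j, N ((c i * d j) • ((v i : A) ⊗ₜ[ℂ] (w j : A))) ≤ ∑ j : Fin 4, ‖a‖ * ‖b‖ / 4 :=
          Finset.sum_le_sum fun j _ => h3 j
      _ = ‖a‖ * ‖b‖ := by rw [Finset.sum_const, Finset.card_univ, Fintype.card_fin]; simp; ring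
  calc ∑ i, N (∑ j, (c i * d j) • ((v i : A) ⊗ₜ[ℂ] (w j : A))) ≤ ∑ i : Fin 4, ‖a‖ * ‖b‖ :=
        Finset.sum_le_sum fun i _ => h2 i
    _ = 4 * ‖a‖ * ‖b‖ := by rw [Finset.sum_const, Finset.card_univ, Fintype.card_fin]; simp; ring

end bound

section card

variable (A) in
/-- finite sums of elementary tensors from a dense sequence -/
def DD [TopologicalSpace.SeparableSpace A] (l : List (ℕ × ℕ)) : A ⊗[ℂ] A :=
  (l.map fun q => TopologicalSpace.denseSeq A q.1 ⊗ₜ[ℂ] TopologicalSpace.denseSeq A q.2).sum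

theorem DD_append [TopologicalSpace.SeparableSpace A] (l l' : List (ℕ × ℕ)) :
    DD A (l ++ l') = DD A l + DD A l' := by
  rw [DD, List.map_append, List.sum_append]; rfl

theorem near [TopologicalSpace.SeparableSpace A] (t : A ⊗[ℂ] A) : ∀ ε : ℝ, 0 < ε →
    ∃ l, ∀ N : A ⊗[ℂ] A → ℝ, IsCStarNorm N → N (t - DD A l) ≤ ε := by
  induction t using TensorProduct.induction_on with
  | zero =>
    intro ε hε
    refine ⟨[], fun N hN => ?_⟩
    have : (0 : A ⊗[ℂ] A) - DD A [] = 0 := by simp [DD]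
    rw [this, N_zero hN]
    exact hε.le
  | tmul a b =>
    intro ε hε
    set η : ℝ := min 1 (ε / (4 * (‖a‖ + ‖b‖ + 1))) with hη
    have hpos : 0 < 4 * (‖a‖ + ‖b‖ + 1) := by positivity
    have hη0 : 0 < η := lt_min one_pos (by positivity)
    have hη1 : η ≤ 1 := min_le_left _ _
    have hη2 : η * (4 * (‖a‖ + ‖b‖ + 1)) ≤ ε := by
      have := min_le_right 1 (ε / (4 * (‖a‖ + ‖b‖ + 1)))
      rw [← hη, le_div_iff₀ hpos] at this
      exact this
    obtain ⟨p, hp⟩ := (TopologicalSpace.denseRange_denseSeq A).exists_dist_lt a hη0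
    obtain ⟨q, hq⟩ := (TopologicalSpace.denseRange_denseSeq A).exists_dist_lt b hη0
    refine ⟨[(p, q)], fun N hN => ?_⟩
    set a' := TopologicalSpace.denseSeq A p
    set b' := TopologicalSpace.denseSeq A q
    rw [dist_eq_norm] at hp hq
    have h1 : a ⊗ₜ[ℂ] b - DD A [(p, q)] = (a - a') ⊗ₜ[ℂ] b + a' ⊗ₜ[ℂ] (b - b') := by
      simp only [DD, List.map_cons, List.map_nil, List.sum_cons, List.sum_nil, add_zero]
      rw [TensorProduct.sub_tmul, TensorProduct.tmul_sub]
      abel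
    rw [h1]
    refine (hN.add_le _ _).trans ?_
    have h2 := N_tmul hN (a - a') b
    have h3 := N_tmul hN a' (b - b')
    have h4 : ‖a'‖ ≤ ‖a‖ + η := by
      have := norm_sub_norm_le a' a
      rw [norm_sub_rev] at this
      linarith
    have h5 : 4 * ‖a - a'‖ * ‖b‖ ≤ 4 * η * ‖b‖ := by gcongr
    have h6 : 4 * ‖a'‖ * ‖b - b'‖ ≤ 4 * (‖a‖ + η) * η := by gcongr
    have h7 : 4 * (‖a‖ + η) * η ≤ 4 * (‖a‖ + 1) * η := by gcongr
    nlinarith
  | add x y hx hy =>
    intro ε hε
    obtain ⟨l, hl⟩ := hx (ε / 2) (by positivity)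
    obtain ⟨l', hl'⟩ := hy (ε / 2) (by positivity)
    refine ⟨l ++ l', fun N hN => ?_⟩
    have h1 : x + y - DD A (l ++ l') = (x - DD A l) + (y - DD A l') := by
      rw [DD_append]; abel
    rw [h1]
    have := hN.add_le (x - DD A l) (y - DD A l')
    have h2 := hl N hN
    have h3 := hl' N hN
    linarith

theorem upper [TopologicalSpace.SeparableSpace A] :
    #{N : A ⊗[ℂ] A → ℝ // IsCStarNorm N} ≤ 𝔠 := by
  have hinj : Function.Injective (fun (N : {N : A ⊗[ℂ] A → ℝ // IsCStarNorm N})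
      (l : List (ℕ × ℕ)) => N.1 (DD A l)) := by
    rintro ⟨N, hN⟩ ⟨N', hN'⟩ h
    apply Subtype.ext
    funext t
    have key : ∀ (N N' : A ⊗[ℂ] A → ℝ), IsCStarNorm N → IsCStarNorm N' →
        (∀ l, N (DD A l) = N' (DD A l)) → N t ≤ N' t := by
      intro N N' hN hN' h
      refine le_of_forall_pos_le_add fun ε hε => ?_
      obtain ⟨l, hl⟩ := near t (ε / 2) (by positivity)
      have h1 := hl N hN
      have h2 := hl N' hN'
      have h3 := hN.add_le (t - DD A l) (DD A l)
      have h4 := hN'.add_le (-(t - DD A l)) t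
      rw [N_neg hN'] at h4
      rw [sub_add_cancel] at h3
      have e : -(t - DD A l) + t = DD A l := by abel
      rw [e] at h4
      have h5 := h l
      linarith
    have h' : ∀ l, N (DD A l) = N' (DD A l) := fun l => congrFun h l
    exact le_antisymm (key N N' hN hN' h') (key N' N hN' hN fun l => (h' l).symm)
  refine (Cardinal.mk_le_of_injective hinj).trans ?_
  rw [Cardinal.mk_arrow]
  simp only [Cardinal.lift_id, Cardinal.mk_real]
  have h1 : #(List (ℕ × ℕ)) = ℵ₀ := by simp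
  rw [h1, Cardinal.continuum_power_aleph0]

end card

theorem separable {u : FreeGroup ℕ →* unitary A} (hA : IsFullGroupCStar (FreeGroup ℕ) A u) :
    TopologicalSpace.SeparableSpace A := by
  have h1 : (Set.range fun g : FreeGroup ℕ => (u g : A)).Countable := Set.countable_range _
  have h2 := (h1.isSeparable.span (R := ℂ)).closure
  rw [hA.dense, TopologicalSpace.isSeparable_univ_iff] at h2
  exact h2

theorem card_free {u : FreeGroup ℕ →* unitary A} (hA : IsFullGroupCStar (FreeGroup ℕ) A u) :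
    #{N : A ⊗[ℂ] A → ℝ // IsCStarNorm N} = 𝔠 := by
  have := separable hA
  exact le_antisymm upper (lower hA)

end Pool.Agent.U755.FN
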